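import Pool.Agent.Helper39.PalNil

/-!
# The palindromic width of the free nilpotent groups

For `n ≥ 3` and `r ≥ 2` the palindromic width of the free nilpotent group of rank `n` and class `r`
with respect to the free generators is `2 n - 1` for `r ≤ 3` and `2 n + 1` for `r ≥ 4`.
-/

namespace Pool.Agent.Results.MP_e99d20_al.PalWidth

open Pool.Agent.Helper39.PalNil

section defs
variable {ι G : Type} [Group G]

/-- The element of the group represented by a word: the letter `(i, true)` stands for the generator
`x i` and the letter `(i, false)` for its inverse. -/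
def wordValue (x : ι → G) (w : List (ι × Bool)) : G :=
  (w.map fun a => cond a.2 (x a.1) (x a.1)⁻¹).prod

/-- An element of the group is a palindrome with respect to the generators `x i` if it is represented
by a reduced word that coincides with its own reversal. -/
def IsPalindrome (x : ι → G) (g : G) : Prop :=
  ∃ w : List (ι × Bool), FreeGroup.IsReduced w ∧ w.reverse = w ∧ wordValue x w = g

/-- The palindromic length: the least number of factors in an expression of `g` as a product of
palindromes (infinite if there is none). -/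
noncomputable def palLength (x : ι → G) (g : G) : ℕ∞ :=
  ⨅ (l : List G) (_ : (∀ p ∈ l, IsPalindrome x p) ∧ l.prod = g), (l.length : ℕ∞)

/-- The palindromic width: the supremum of the palindromic lengths. -/
noncomputable def palWidth (x : ι → G) : ℕ∞ := ⨆ g : G, palLength x g

end defs

/-- The free nilpotent group of rank `n` and class `r`: the free group modulo the term
`γ_{r+1}` of the lower central series (Mathlib numbers the whole group by `0`). -/
abbrev FreeNilpotent (n r : ℕ) : Type :=
  FreeGroup (Fin n) ⧸ (⊤ : Subgroup (FreeGroup (Fin n))).lowerCentralSeries r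

/-- The standard generators of the free nilpotent group. -/
def gen (n r : ℕ) (i : Fin n) : FreeNilpotent n r := QuotientGroup.mk (FreeGroup.of i)

section bridge
variable {n r : ℕ}

lemma wordValue_gen (w : List (Fin n × Bool)) :
    wordValue (gen n r) w = QuotientGroup.mk (FreeGroup.mk w) := by
  induction w with
  | nil => rfl
  | cons a w ih =>
    have h1 : FreeGroup.mk (a :: w) = FreeGroup.mk [a] * FreeGroup.mk w := by
      rw [FreeGroup.mul_mk]; rfl
    have h2 : wordValue (gen n r) (a :: w) =
        cond a.2 (gen n r a.1) (gen n r a.1)⁻¹ * wordValue (gen n r) w := by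
      simp [wordValue]
    rw [h1, h2, ih, QuotientGroup.mk_mul]
    congr 1
    obtain ⟨i, b⟩ := a
    cases b
    · simp only [cond_false, gen]
      rw [← QuotientGroup.mk_inv]
      rfl
    · rfl

lemma invAut_mk (w : List (Fin n × Bool)) :
    invAut n (FreeGroup.mk w) = FreeGroup.mk (w.map fun a => (a.1, !a.2)) := by
  induction w with
  | nil => rfl
  | cons a w ih =>
    have h1 : FreeGroup.mk (a :: w) = FreeGroup.mk [a] * FreeGroup.mk w := by
      rw [FreeGroup.mul_mk]; rfl
    rw [h1, map_mul, ih, List.map_cons, ← List.singleton_append, ← FreeGroup.mul_mk]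
    congr 1
    obtain ⟨i, b⟩ := a
    cases b
    · simp [invAut, FreeGroup.of]
    · simp [invAut, FreeGroup.of, FreeGroup.invRev]

lemma toWord_palindrome {p : FreeGroup (Fin n)} (hp : Pal (invAut n) p) :
    p.toWord.reverse = p.toWord := by
  set w := p.toWord with hw
  have hred : FreeGroup.IsReduced w := FreeGroup.isReduced_toWord
  have hp' : FreeGroup.mk w = p := FreeGroup.mk_toWord
  have h1 : FreeGroup.mk (w.map fun a => (a.1, !a.2)) = FreeGroup.mk (FreeGroup.invRev w) := by
    rw [← invAut_mk, hp', hp, ← hp', FreeGroup.inv_mk]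
  have hinj : Function.Injective (fun a : Fin n × Bool => (a.1, !a.2)) := by
    rintro ⟨i, b⟩ ⟨j, c⟩ h
    simp only [Prod.mk.injEq, Bool.not_inj_iff] at h
    rw [h.1, h.2]
  have hred1 : FreeGroup.IsReduced (w.map fun a => (a.1, !a.2)) := by
    unfold FreeGroup.IsReduced at hred ⊢
    rw [List.isChain_map]
    refine hred.imp ?_
    intro a b hab h
    simp only at h ⊢
    rw [hab h]
  have hred2 : FreeGroup.IsReduced (FreeGroup.invRev w) := by
    unfold FreeGroup.IsReduced at hred1 ⊢
    rw [FreeGroup.invRev, List.isChain_reverse]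
    refine hred1.imp ?_
    intro a b hab h
    exact (hab h.symm).symm
  have h2 := congrArg FreeGroup.toWord h1
  rw [FreeGroup.toWord_mk, FreeGroup.toWord_mk, hred1.reduce_eq, hred2.reduce_eq, FreeGroup.invRev,
    ← List.map_reverse] at h2
  exact (List.map_injective_iff.2 hinj h2).symm

lemma isPalindrome_mk {p : FreeGroup (Fin n)} (hp : Pal (invAut n) p) :
    IsPalindrome (gen n r) (QuotientGroup.mk p) := by
  refine ⟨p.toWord, FreeGroup.isReduced_toWord, toWord_palindrome hp, ?_⟩
  rw [wordValue_gen, FreeGroup.mk_toWord]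

lemma upper_bound {N : ℕ} (h : ∀ g : FreeGroup (Fin n), ∃ l : List (FreeGroup (Fin n)),
    l.length = N ∧ (∀ p ∈ l, Pal (invAut n) p) ∧ l.prod⁻¹ * g ∈ lc (FreeGroup (Fin n)) r) :
    palWidth (gen n r) ≤ N := by
  refine iSup_le ?_
  intro q
  obtain ⟨g, rfl⟩ := QuotientGroup.mk_surjective q
  obtain ⟨l, h1, h2, h3⟩ := h g
  have hl : (∀ p ∈ l.map (QuotientGroup.mk : FreeGroup (Fin n) → FreeNilpotent n r),
      IsPalindrome (gen n r) p) ∧
      (l.map (QuotientGroup.mk : FreeGroup (Fin n) → FreeNilpotent n r)).prod =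
        (QuotientGroup.mk g : FreeNilpotent n r) := by
    refine ⟨?_, ?_⟩
    · intro p hp
      rw [List.mem_map] at hp
      obtain ⟨p, hp, rfl⟩ := hp
      exact isPalindrome_mk (h2 p hp)
    · have h4 := QuotientGroup.eq.2 h3
      rw [← h4]
      exact (map_list_prod (QuotientGroup.mk' (lc (FreeGroup (Fin n)) r)) l).symm
  have h5 : palLength (gen n r) (QuotientGroup.mk g : FreeNilpotent n r) ≤
      ((l.map (QuotientGroup.mk : FreeGroup (Fin n) → FreeNilpotent n r)).length : ℕ∞) :=
    iInf_le_of_le _ (iInf_le _ hl)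
  rwa [List.length_map, h1] at h5

lemma lift_list (l : List (FreeNilpotent n r)) (hl : ∀ p ∈ l, IsPalindrome (gen n r) p) :
    ∃ l' : List (FreeGroup (Fin n)), l'.length = l.length ∧
      (∀ p ∈ l', ∃ w : List (Fin n × Bool), w.reverse = w ∧ FreeGroup.mk w = p) ∧
      QuotientGroup.mk l'.prod = l.prod := by
  induction l with
  | nil => exact ⟨[], rfl, by simp, rfl⟩
  | cons p l ih =>
    obtain ⟨l', h1, h2, h3⟩ := ih (fun p hp => hl p (List.mem_cons_of_mem _ hp))
    obtain ⟨w, -, hw, hp⟩ := hl p List.mem_cons_self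
    refine ⟨FreeGroup.mk w :: l', by simp [h1], ?_, ?_⟩
    · intro q hq
      rcases List.mem_cons.1 hq with rfl | hq
      · exact ⟨w, hw, rfl⟩
      · exact h2 q hq
    · rw [List.prod_cons, List.prod_cons, QuotientGroup.mk_mul, h3, ← hp, wordValue_gen]

lemma lower_bound {N : ℕ} (g : FreeGroup (Fin n)) (h : ∀ l : List (FreeGroup (Fin n)),
    (∀ p ∈ l, ∃ w : List (Fin n × Bool), w.reverse = w ∧ FreeGroup.mk w = p) →
      l.prod⁻¹ * g ∈ lc (FreeGroup (Fin n)) r → N ≤ l.length) :
    (N : ℕ∞) ≤ palWidth (gen n r) := by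
  refine le_trans ?_ (le_iSup (fun q => palLength (gen n r) q) (QuotientGroup.mk g))
  refine le_iInf₂ ?_
  rintro l ⟨hl, hprod⟩
  obtain ⟨l', h1, h2, h3⟩ := lift_list l hl
  rw [← h1]
  exact_mod_cast h l' h2 (QuotientGroup.eq.1 (h3.trans hprod))

end bridge

/-- **Palindromic width of free nilpotent groups.** For `n ≥ 3` and `r ≥ 2` it equals `2 n - 1` if
`r ≤ 3`, and `2 n + 1` if `r ≥ 4`. -/
theorem result : ∀ n r : ℕ, 3 ≤ n → 2 ≤ r →
    palWidth (gen n r) = if r ≤ 3 then ((2 * n - 1 : ℕ) : ℕ∞) else ((2 * n + 1 : ℕ) : ℕ∞) := by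
  intro n r hn hr
  split_ifs with h3
  · refine le_antisymm (upper_bound ?_) (lower_bound (gTwo n) fun l hl h => lower_two hr l hl h)
    intro g
    obtain ⟨l, h1, h2, h4⟩ := free_upper_three n (by omega) g
    exact ⟨l, h1, h2, lc_antitone h3 h4⟩
  · refine le_antisymm (upper_bound ?_) (lower_bound ((gTwo n) ^ 2)
      fun l hl h => lower_four hn (by omega) l hl h)
    intro g
    exact free_upper_all n (by omega) g r hr

end Pool.Agent.Results.MP_e99d20_al.PalWidth
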